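import Pool.Agent.Y478.TG.Stm

/-!
# The quotient complex of a product (`QcxStmt`, `QprStmt`)
-/

set_option autoImplicit false

noncomputable section

namespace Pool.Agent.Y681.TG.Qpr

open Pool.Agent.Y478.TG Matrix

/-! ### the quotient is a complex -/

section conv

variable {Q : Type} [Group Q] [Fintype Q]

theorem conv (f g : MonoidAlgebra ℤ Q) (x y : Q) :
    ∑ z : Q, f.coeff (x⁻¹ * z) * g.coeff (z⁻¹ * y) = (f * g).coeff (x⁻¹ * y) := by
  classical
  induction f using MonoidAlgebra.induction_linear with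
  | zero => simp
  | add a b ha hb =>
    simp only [add_mul, MonoidAlgebra.coeff_add, Finsupp.add_apply, Finset.sum_add_distrib, ha, hb]
  | single a n =>
    rw [Finset.sum_eq_single (x * a)]
    · rw [MonoidAlgebra.coeff_single_mul_apply, MonoidAlgebra.coeff_single, inv_mul_cancel_left,
        Finsupp.single_eq_same]
      congr 2
      group
    · intro z _ hz
      rw [MonoidAlgebra.coeff_single, Finsupp.single_eq_of_ne, zero_mul]
      intro h
      apply hz
      rw [← h]
      group
    · intro h; exact absurd (Finset.mem_univ _) h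

end conv

theorem u : QcxStmt := by
  intro G _ C N _ _
  refine ⟨fun p q h => ?_, ?_⟩
  · apply C.deg_eq
    intro h0
    apply h
    show (MonoidAlgebra.mapDomain (QuotientGroup.mk' N) (C.d p.1 q.1)).coeff (p.2⁻¹ * q.2) = 0
    rw [h0, MonoidAlgebra.mapDomain_zero]
    rfl
  · ext p q
    rw [Matrix.mul_apply, Matrix.zero_apply, Fintype.sum_prod_type]
    have h1 : ∀ b, ∑ z : G ⧸ N, C.bd N p (b, z) * C.bd N (b, z) q =
        (MonoidAlgebra.mapDomainRingHom ℤ (QuotientGroup.mk' N) (C.d p.1 b * C.d b q.1)).coeff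
          (p.2⁻¹ * q.2) := by
      intro b
      rw [RingHom.map_mul]
      exact conv (MonoidAlgebra.mapDomainRingHom ℤ (QuotientGroup.mk' N) (C.d p.1 b))
        (MonoidAlgebra.mapDomainRingHom ℤ (QuotientGroup.mk' N) (C.d b q.1)) p.2 q.2
    rw [Finset.sum_congr rfl fun b _ => h1 b]
    have h2 : ∑ b, (MonoidAlgebra.mapDomainRingHom ℤ (QuotientGroup.mk' N)
        (C.d p.1 b * C.d b q.1)).coeff (p.2⁻¹ * q.2) =
        (MonoidAlgebra.mapDomainRingHom ℤ (QuotientGroup.mk' N) ((C.d * C.d) p.1 q.1)).coeff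
          (p.2⁻¹ * q.2) := by
      rw [Matrix.mul_apply, map_sum, MonoidAlgebra.coeff_sum, Finsupp.finsetSum_apply]
    rw [h2, C.d_mul_d, Matrix.zero_apply, map_zero]
    rfl

/-! ### invariance under relabelling -/

section cong

variable {I I' R : Type} [Fintype I] [Fintype I'] [CommRing R]

omit [Fintype I] [Fintype I'] in
theorem chains_iff (e : I ≃ I') (deg : I → ℕ) (deg' : I' → ℕ) (hd : ∀ i, deg' (e i) = deg i) (n : ℕ)
    (v : I → R) : LinearEquiv.funCongrLeft R R e.symm v ∈ chains R deg' n ↔ v ∈ chains R deg n := by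
  constructor
  · intro h i hi
    have := h (e i) (by rw [hd]; exact hi)
    rwa [LinearEquiv.funCongrLeft_apply, LinearMap.funLeft_apply, Equiv.symm_apply_apply] at this
  · intro h i hi
    rw [LinearEquiv.funCongrLeft_apply, LinearMap.funLeft_apply]
    apply h
    rwa [← hd, Equiv.apply_symm_apply]

theorem vecMul_congr (e : I ≃ I') (A : Matrix I I R) (A' : Matrix I' I' R)
    (hA : ∀ i j, A' (e i) (e j) = A i j) (v : I → R) :
    vecMul (LinearEquiv.funCongrLeft R R e.symm v) A' =
      LinearEquiv.funCongrLeft R R e.symm (vecMul v A) := by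
  funext i'
  rw [LinearEquiv.funCongrLeft_apply, LinearEquiv.funCongrLeft_apply, LinearMap.funLeft_apply]
  simp only [vecMul, dotProduct]
  refine (Fintype.sum_equiv e _ _ fun j => ?_).symm
  rw [LinearMap.funLeft_apply, Equiv.symm_apply_apply, ← hA, Equiv.apply_symm_apply]

theorem cycles_iff (e : I ≃ I') (deg : I → ℕ) (deg' : I' → ℕ) (hd : ∀ i, deg' (e i) = deg i)
    (A : Matrix I I R) (A' : Matrix I' I' R) (hA : ∀ i j, A' (e i) (e j) = A i j) (n : ℕ) :
    (cycles deg A n).map (LinearEquiv.funCongrLeft R R e.symm : (I → R) →ₗ[R] (I' → R)) =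
      cycles deg' A' n := by
  ext w
  rw [Submodule.mem_map_equiv]
  obtain ⟨v, rfl⟩ := (LinearEquiv.funCongrLeft R R e.symm).surjective w
  rw [LinearEquiv.symm_apply_apply]
  refine and_congr (chains_iff e deg deg' hd n v).symm ?_
  rw [SetLike.mem_coe, SetLike.mem_coe, LinearMap.mem_ker, LinearMap.mem_ker,
    Matrix.vecMulLinear_apply, Matrix.vecMulLinear_apply, vecMul_congr e A A' hA]
  exact (LinearEquiv.map_eq_zero_iff _).symm

theorem boundaries_iff (e : I ≃ I') (deg : I → ℕ) (deg' : I' → ℕ) (hd : ∀ i, deg' (e i) = deg i)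
    (A : Matrix I I R) (A' : Matrix I' I' R) (hA : ∀ i j, A' (e i) (e j) = A i j) (n : ℕ) :
    (boundaries deg A n).map (LinearEquiv.funCongrLeft R R e.symm : (I → R) →ₗ[R] (I' → R)) =
      boundaries deg' A' n := by
  ext w
  constructor
  · rintro ⟨_, ⟨v, hv, rfl⟩, rfl⟩
    refine ⟨LinearEquiv.funCongrLeft R R e.symm v, (chains_iff e deg deg' hd _ v).2 hv, ?_⟩
    rw [Matrix.vecMulLinear_apply, Matrix.vecMulLinear_apply, vecMul_congr e A A' hA]
    rfl
  · rintro ⟨v', hv', rfl⟩
    obtain ⟨v, rfl⟩ := (LinearEquiv.funCongrLeft R R e.symm).surjective v'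
    refine ⟨_, ⟨v, (chains_iff e deg deg' hd _ v).1 hv', rfl⟩, ?_⟩
    rw [Matrix.vecMulLinear_apply, Matrix.vecMulLinear_apply, vecMul_congr e A A' hA]
    rfl

/-- the induced isomorphism -/
def equivH {M N : Type} [AddCommGroup M] [AddCommGroup N] [Module R M] [Module R N] (e : M ≃ₗ[R] N)
    (Z B : Submodule R M) (Z' B' : Submodule R N) (hZ : Z.map (e : M →ₗ[R] N) = Z')
    (hB : B.map (e : M →ₗ[R] N) = B') :
    (Z ⧸ B.submoduleOf Z) ≃ₗ[R] (Z' ⧸ B'.submoduleOf Z') :=
  Submodule.Quotient.equiv _ _ (e.submoduleMap Z ≪≫ₗ LinearEquiv.ofEq _ _ hZ) (by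
    ext w
    constructor
    · rintro ⟨z, hz, rfl⟩
      show e z ∈ B'
      rw [← hB]
      exact ⟨z, hz, rfl⟩
    · intro hw
      have hw' : (w : N) ∈ B' := hw
      rw [← hB] at hw'
      obtain ⟨b, hb, hbw⟩ := hw'
      have hbZ : b ∈ Z := by
        have h1 : (w : N) ∈ Z.map (e : M →ₗ[R] N) := by
          rw [hZ]
          exact w.2
        obtain ⟨z, hz, hzw⟩ := h1
        have : b = z := e.injective (hbw.trans hzw.symm)
        rw [this]
        exact hz
      refine ⟨⟨b, hbZ⟩, hb, ?_⟩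
      apply Subtype.ext
      exact hbw)

theorem betti_congr {F : Type} [Field F] (e : I ≃ I') (deg : I → ℕ) (deg' : I' → ℕ)
    (hd : ∀ i, deg' (e i) = deg i) (A : Matrix I I F) (A' : Matrix I' I' F)
    (hA : ∀ i j, A' (e i) (e j) = A i j) (n : ℕ) : betti deg A n = betti deg' A' n :=
  LinearEquiv.finrank_eq (equivH (LinearEquiv.funCongrLeft F F e.symm) _ _ _ _
    (cycles_iff e deg deg' hd A A' hA n) (boundaries_iff e deg deg' hd A A' hA n))

theorem torsOrder_congr (e : I ≃ I') (deg : I → ℕ) (deg' : I' → ℕ)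
    (hd : ∀ i, deg' (e i) = deg i) (A : Matrix I I ℤ) (A' : Matrix I' I' ℤ)
    (hA : ∀ i j, A' (e i) (e j) = A i j) (n : ℕ) : torsOrder deg A n = torsOrder deg' A' n := by
  let E := equivH (LinearEquiv.funCongrLeft ℤ ℤ e.symm) _ _ _ _
    (cycles_iff e deg deg' hd A A' hA n) (boundaries_iff e deg deg' hd A A' hA n)
  refine Nat.card_congr (Equiv.subtypeEquiv E.toEquiv fun x => ?_)
  constructor
  · rintro ⟨c, hc⟩
    refine ⟨c, ?_⟩
    show (c : ℤ) • E x = 0
    have hc' : (c : ℤ) • x = 0 := hc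
    rw [← map_smul, hc', map_zero]
  · rintro ⟨c, hc⟩
    refine ⟨c, ?_⟩
    show (c : ℤ) • x = 0
    have hc' : (c : ℤ) • E x = 0 := hc
    rw [← map_smul] at hc'
    exact (LinearEquiv.map_eq_zero_iff E).1 hc'

end cong

/-! ### the product -/

section prod

variable {G H : Type} [Group G] [Group H] (N : Subgroup G) (M : Subgroup H) [N.Normal] [M.Normal]

theorem coeff_inl (z : MonoidAlgebra ℤ G) (w : (G × H) ⧸ (N.prod M)) [DecidableEq (H ⧸ M)] :
    (MonoidAlgebra.mapDomain (QuotientGroup.mk' (N.prod M)) (inl G H z)).coeff w =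
      if (QuotientGroup.prodMulEquiv N M w).2 = 1 then
        (MonoidAlgebra.mapDomain (QuotientGroup.mk' N) z).coeff (QuotientGroup.prodMulEquiv N M w).1
      else 0 := by
  classical
  induction z using MonoidAlgebra.induction_linear with
  | zero => simp
  | add a b ha hb =>
    rw [map_add, MonoidAlgebra.mapDomain_add, MonoidAlgebra.coeff_add, Finsupp.add_apply, ha, hb,
      MonoidAlgebra.mapDomain_add, MonoidAlgebra.coeff_add, Finsupp.add_apply]
    split_ifs <;> simp
  | single g n =>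
    rw [inl_single, MonoidAlgebra.mapDomain_single, MonoidAlgebra.mapDomain_single,
      MonoidAlgebra.coeff_single, MonoidAlgebra.coeff_single, Finsupp.single_apply,
      Finsupp.single_apply]
    have h1 : (QuotientGroup.mk' (N.prod M) (g, (1 : H)) = w) ↔
        ((QuotientGroup.mk' N g = (QuotientGroup.prodMulEquiv N M w).1) ∧
          (QuotientGroup.prodMulEquiv N M w).2 = 1) := by
      rw [← (QuotientGroup.prodMulEquiv N M).injective.eq_iff, Prod.ext_iff]
      exact and_congr Iff.rfl eq_comm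
    by_cases h2 : (QuotientGroup.prodMulEquiv N M w).2 = 1
    · rw [if_pos h2]
      simp only [h1, h2, and_true]
    · rw [if_neg h2, if_neg (fun h => h2 (h1.1 h).2)]

theorem coeff_inr (z : MonoidAlgebra ℤ H) (w : (G × H) ⧸ (N.prod M)) [DecidableEq (G ⧸ N)] :
    (MonoidAlgebra.mapDomain (QuotientGroup.mk' (N.prod M)) (inr G H z)).coeff w =
      if (QuotientGroup.prodMulEquiv N M w).1 = 1 then
        (MonoidAlgebra.mapDomain (QuotientGroup.mk' M) z).coeff (QuotientGroup.prodMulEquiv N M w).2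
      else 0 := by
  classical
  induction z using MonoidAlgebra.induction_linear with
  | zero => simp
  | add a b ha hb =>
    rw [map_add, MonoidAlgebra.mapDomain_add, MonoidAlgebra.coeff_add, Finsupp.add_apply, ha, hb,
      MonoidAlgebra.mapDomain_add, MonoidAlgebra.coeff_add, Finsupp.add_apply]
    split_ifs <;> simp
  | single g n =>
    rw [inr_single, MonoidAlgebra.mapDomain_single, MonoidAlgebra.mapDomain_single,
      MonoidAlgebra.coeff_single, MonoidAlgebra.coeff_single, Finsupp.single_apply,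
      Finsupp.single_apply]
    have h1 : (QuotientGroup.mk' (N.prod M) ((1 : G), g) = w) ↔
        ((QuotientGroup.prodMulEquiv N M w).1 = 1 ∧
          (QuotientGroup.mk' M g = (QuotientGroup.prodMulEquiv N M w).2)) := by
      rw [← (QuotientGroup.prodMulEquiv N M).injective.eq_iff, Prod.ext_iff]
      exact and_congr eq_comm Iff.rfl
    by_cases h2 : (QuotientGroup.prodMulEquiv N M w).1 = 1
    · rw [if_pos h2]
      simp only [h1, h2, true_and]
    · rw [if_neg h2, if_neg (fun h => h2 (h1.1 h).1)]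

variable (C : Cx G) (D : Cx H)

/-- the relabelling -/
def EE : (Fin (C.prod D).cells × ((G × H) ⧸ (N.prod M))) ≃
    (Fin C.cells × (G ⧸ N)) × (Fin D.cells × (H ⧸ M)) where
  toFun p := (((finProdFinEquiv.symm p.1).1, (QuotientGroup.prodMulEquiv N M p.2).1),
    ((finProdFinEquiv.symm p.1).2, (QuotientGroup.prodMulEquiv N M p.2).2))
  invFun p := (finProdFinEquiv (p.1.1, p.2.1), (QuotientGroup.prodMulEquiv N M).symm (p.1.2, p.2.2))
  left_inv p := by
    obtain ⟨a, x⟩ := p
    apply Prod.ext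
    · exact finProdFinEquiv.apply_symm_apply a
    · exact (QuotientGroup.prodMulEquiv N M).symm_apply_apply x
  right_inv p := by
    obtain ⟨⟨a, x⟩, ⟨b, y⟩⟩ := p
    simp only [Equiv.symm_apply_apply, MulEquiv.apply_symm_apply]

theorem EE_deg (p : Fin (C.prod D).cells × ((G × H) ⧸ (N.prod M))) :
    degT (fun p : Fin C.cells × (G ⧸ N) => C.deg p.1) (fun p : Fin D.cells × (H ⧸ M) => D.deg p.1)
      (EE N M C D p) = (C.prod D).deg p.1 := rfl

theorem EE_mat [DecidableEq (G ⧸ N)] [DecidableEq (H ⧸ M)]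
    (p q : Fin (C.prod D).cells × ((G × H) ⧸ (N.prod M))) :
    tens (fun p : Fin C.cells × (G ⧸ N) => C.deg p.1) (C.bd N) (D.bd M) (EE N M C D p) (EE N M C D q) =
      (C.prod D).bd (N.prod M) p q := by
  obtain ⟨a, x⟩ := p
  obtain ⟨b, y⟩ := q
  show _ = (MonoidAlgebra.mapDomain (QuotientGroup.mk' (N.prod M))
    (tens C.deg (C.d.map (inl G H)) (D.d.map (inr G H)) (finProdFinEquiv.symm a)
      (finProdFinEquiv.symm b))).coeff (x⁻¹ * y)
  show (if ((finProdFinEquiv.symm a).2, (QuotientGroup.prodMulEquiv N M x).2) =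
        ((finProdFinEquiv.symm b).2, (QuotientGroup.prodMulEquiv N M y).2) then
      (MonoidAlgebra.mapDomain (QuotientGroup.mk' N) (C.d (finProdFinEquiv.symm a).1
        (finProdFinEquiv.symm b).1)).coeff ((QuotientGroup.prodMulEquiv N M x).1⁻¹ *
          (QuotientGroup.prodMulEquiv N M y).1) else 0) +
      (if ((finProdFinEquiv.symm a).1, (QuotientGroup.prodMulEquiv N M x).1) =
        ((finProdFinEquiv.symm b).1, (QuotientGroup.prodMulEquiv N M y).1) then
      (-1) ^ C.deg (finProdFinEquiv.symm a).1 *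
      (MonoidAlgebra.mapDomain (QuotientGroup.mk' M) (D.d (finProdFinEquiv.symm a).2
        (finProdFinEquiv.symm b).2)).coeff ((QuotientGroup.prodMulEquiv N M x).2⁻¹ *
          (QuotientGroup.prodMulEquiv N M y).2) else 0) =
    (MonoidAlgebra.mapDomain (QuotientGroup.mk' (N.prod M))
      ((if (finProdFinEquiv.symm a).2 = (finProdFinEquiv.symm b).2 then
        inl G H (C.d (finProdFinEquiv.symm a).1 (finProdFinEquiv.symm b).1) else 0) +
      (if (finProdFinEquiv.symm a).1 = (finProdFinEquiv.symm b).1 then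
        (-1) ^ C.deg (finProdFinEquiv.symm a).1 *
          inr G H (D.d (finProdFinEquiv.symm a).2 (finProdFinEquiv.symm b).2) else 0))).coeff (x⁻¹ * y)
  generalize finProdFinEquiv.symm a = a'
  generalize finProdFinEquiv.symm b = b'
  obtain ⟨a1, a2⟩ := a'
  obtain ⟨b1, b2⟩ := b'
  dsimp only
  simp only [Prod.mk.injEq]
  have hψ : QuotientGroup.prodMulEquiv N M (x⁻¹ * y) =
      (QuotientGroup.prodMulEquiv N M x)⁻¹ * QuotientGroup.prodMulEquiv N M y := by
    rw [map_mul, map_inv]
  have hx : ∀ (c : ℕ) (z : MonoidAlgebra ℤ (G × H)) (w : (G × H) ⧸ (N.prod M)),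
      (MonoidAlgebra.mapDomain (QuotientGroup.mk' (N.prod M)) ((-1) ^ c * z)).coeff w =
      (-1) ^ c * (MonoidAlgebra.mapDomain (QuotientGroup.mk' (N.prod M)) z).coeff w := by
    intro c z w
    rcases neg_one_pow_eq_or (MonoidAlgebra ℤ (G × H)) c with h | h
    · rw [h, one_mul]
      rcases Nat.even_or_odd c with h2 | h2
      · rw [h2.neg_one_pow, one_mul]
      · rw [h2.neg_one_pow] at h
        exfalso
        have h3 := congrArg (fun z : MonoidAlgebra ℤ (G × H) => z.coeff 1) h
        simp at h3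
    · rcases Nat.even_or_odd c with h2 | h2
      · rw [h2.neg_one_pow] at h
        exfalso
        have h3 := congrArg (fun z : MonoidAlgebra ℤ (G × H) => z.coeff 1) h
        simp at h3
      · rw [h, h2.neg_one_pow, neg_one_mul, neg_one_mul]
        have h3 : MonoidAlgebra.mapDomain (QuotientGroup.mk' (N.prod M)) (-z) =
            -MonoidAlgebra.mapDomain (QuotientGroup.mk' (N.prod M)) z :=
          map_neg (MonoidAlgebra.mapDomainRingHom ℤ (QuotientGroup.mk' (N.prod M))) z
        rw [h3]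
        rfl
  rw [MonoidAlgebra.mapDomain_add, MonoidAlgebra.coeff_add, Finsupp.add_apply]
  congr 1
  · by_cases h : a2 = b2
    · subst h
      rw [if_pos rfl, coeff_inl, hψ]
      by_cases h2 : (QuotientGroup.prodMulEquiv N M x).2 = (QuotientGroup.prodMulEquiv N M y).2
      · rw [if_pos ⟨rfl, h2⟩, if_pos]
        · rfl
        · show ((QuotientGroup.prodMulEquiv N M x).2)⁻¹ * (QuotientGroup.prodMulEquiv N M y).2 = 1
          rw [h2, inv_mul_cancel]
      · rw [if_neg (fun h3 => h2 h3.2), if_neg]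
        intro h3
        apply h2
        have h4 : ((QuotientGroup.prodMulEquiv N M x).2)⁻¹ * (QuotientGroup.prodMulEquiv N M y).2 = 1 := h3
        exact (inv_mul_eq_one.1 h4)
    · rw [if_neg h, if_neg (fun h3 => h h3.1), MonoidAlgebra.mapDomain_zero]
      rfl
  · by_cases h : a1 = b1
    · subst h
      rw [if_pos rfl, hx, coeff_inr, hψ]
      by_cases h2 : (QuotientGroup.prodMulEquiv N M x).1 = (QuotientGroup.prodMulEquiv N M y).1
      · rw [if_pos ⟨rfl, h2⟩, if_pos]
        · rfl
        · show ((QuotientGroup.prodMulEquiv N M x).1)⁻¹ * (QuotientGroup.prodMulEquiv N M y).1 = 1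
          rw [h2, inv_mul_cancel]
      · rw [if_neg (fun h3 => h2 h3.2), if_neg, mul_zero]
        intro h3
        apply h2
        have h4 : ((QuotientGroup.prodMulEquiv N M x).1)⁻¹ * (QuotientGroup.prodMulEquiv N M y).1 = 1 := h3
        exact (inv_mul_eq_one.1 h4)
    · rw [if_neg h, if_neg (fun h3 => h h3.1), MonoidAlgebra.mapDomain_zero]
      rfl

end prod

theorem t : QprStmt := by
  intro G H _ _ C D N M _ _ _ _ _ _ _ _ _ n
  refine ⟨?_, fun F _ => ?_⟩
  · let _ := Fintype.ofFinite ((G × H) ⧸ (N.prod M))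
    exact torsOrder_congr (EE N M C D) _ _ (fun p => EE_deg N M C D p) _ _
      (fun p q => EE_mat N M C D p q) n
  · let _ := Fintype.ofFinite ((G × H) ⧸ (N.prod M))
    refine betti_congr (EE N M C D) _ _ (fun p => EE_deg N M C D p) _ _ (fun p q => ?_) n
    show Int.castRingHom F _ = Int.castRingHom F _
    rw [EE_mat]

end Pool.Agent.Y681.TG.Qpr
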