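import Pool.Agent.Y478.TG.Stm

/-!
# The torsion of the homology of a tensor product (`RetStmt`)
-/

set_option autoImplicit false

noncomputable section

namespace Pool.Agent.Y681.TG.Ret

open Pool.Agent.Y478.TG Matrix

/-! ### independent classes -/

section indep

variable {J : Type} [Fintype J]

/-- integral cycles which are linearly independent modulo boundaries -/
theorem exists_indep (dJ : J → ℕ) (B : Matrix J J ℤ) (m : ℕ) :
    ∃ x : Fin (betti dJ (toF ℚ B) m) → (J → ℤ), (∀ l, x l ∈ cycles dJ B m) ∧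
      ∀ a : Fin (betti dJ (toF ℚ B) m) → ℤ, ∑ l, a l • x l ∈ boundaries dJ B m → a = 0 := by
  classical
  set Z := cycles dJ (toF ℚ B) m with hZ
  set Bd := boundaries dJ (toF ℚ B) m with hBd
  set b : ℕ := betti dJ (toF ℚ B) m with hb
  have hb' : b = Module.finrank ℚ (Z ⧸ Bd.submoduleOf Z) := rfl
  obtain ⟨e⟩ : Nonempty (Module.Basis (Fin b) ℚ (Z ⧸ Bd.submoduleOf Z)) := by
    rw [hb']
    exact ⟨Module.finBasis ℚ _⟩
  have hy : ∀ l, ∃ y : Z, Submodule.Quotient.mk y = e l := fun l => Submodule.Quotient.mk_surjective _ (e l)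
  choose y hy using hy
  obtain ⟨N, hN⟩ := IsLocalization.exist_integer_multiples_of_finite (nonZeroDivisors ℤ)
    (fun p : Fin b × J => ((y p.1 : J → ℚ) p.2))
  have hN0 : (N : ℤ) ≠ 0 := nonZeroDivisors.coe_ne_zero N
  have hN1 : ∀ l j, ∃ z : ℤ, (z : ℚ) = (N : ℤ) * (y l : J → ℚ) j := by
    intro l j
    obtain ⟨z, hz⟩ := hN (l, j)
    refine ⟨z, ?_⟩
    have h1 : algebraMap ℤ ℚ z = (z : ℚ) := rfl
    rw [← h1, hz]
    show ((N : ℤ)) • _ = _
    rw [zsmul_eq_mul]
  choose x hx using hN1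
  have hcast : ∀ u : J → ℤ, ∀ j, ((vecMul u B j : ℤ) : ℚ) =
      vecMul (fun i => (u i : ℚ)) (toF ℚ B) j := by
    intro u j
    simp only [vecMul, dotProduct, toF, Matrix.map_apply]
    push_cast
    rfl
  refine ⟨x, fun l => ⟨fun j hj => ?_, ?_⟩, fun a ha => ?_⟩
  · have h1 := (y l).2.1 j hj
    have h2 := hx l j
    rw [h1, mul_zero] at h2
    exact_mod_cast h2
  · show Matrix.vecMulLinear B (x l) = 0
    rw [Matrix.vecMulLinear_apply]
    funext j
    have h1 : vecMul (y l : J → ℚ) (toF ℚ B) = 0 := (y l).2.2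
    have h2 : (fun i => (x l i : ℚ)) = ((N : ℤ) : ℚ) • (y l : J → ℚ) := by
      funext i
      rw [hx l i]
      rfl
    have h3 := hcast (x l) j
    rw [h2, smul_vecMul, h1, smul_zero, Pi.zero_apply] at h3
    exact_mod_cast h3
  · obtain ⟨u, hu, hu2⟩ := ha
    have h1 : ∑ l, ((a l : ℚ) * (N : ℤ)) • (y l : J → ℚ) ∈ Bd := by
      refine ⟨fun j => (u j : ℚ), fun i hi => ?_, ?_⟩
      · have := hu i hi
        simp [this]
      · rw [Matrix.vecMulLinear_apply] at hu2 ⊢
        funext j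
        rw [← hcast, hu2, Finset.sum_apply, Finset.sum_apply]
        push_cast
        refine Finset.sum_congr rfl fun l _ => ?_
        simp only [Pi.smul_apply, smul_eq_mul]
        push_cast
        rw [hx l j]
        ring
    have h2 : ∑ l, ((a l : ℚ) * (N : ℤ)) • e l = 0 := by
      have h3 : (Submodule.Quotient.mk (∑ l, ((a l : ℚ) * (N : ℤ)) • y l) : Z ⧸ Bd.submoduleOf Z) = 0 := by
        rw [Submodule.Quotient.mk_eq_zero]
        show ((∑ l, ((a l : ℚ) * (N : ℤ)) • y l : Z) : J → ℚ) ∈ Bd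
        rw [AddSubmonoidClass.coe_finsetSum]
        exact h1
      rw [← Submodule.mkQ_apply, map_sum] at h3
      rw [← h3]
      refine Finset.sum_congr rfl fun l _ => ?_
      rw [map_smul, Submodule.mkQ_apply, hy l]
    have h4 := Fintype.linearIndependent_iff.1 e.linearIndependent _ h2
    funext l
    have h5 := h4 l
    have h6 : ((N : ℤ) : ℚ) ≠ 0 := by exact_mod_cast hN0
    have h7 : (a l : ℚ) = 0 := by
      rcases mul_eq_zero.1 h5 with h | h
      · exact h
      · exact absurd h h6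
    exact_mod_cast h7

end indep

/-! ### dual classes -/

section dual

variable {J : Type} [Fintype J]

/-- projection to the chains of degree `m` -/
def pm (dJ : J → ℕ) (m : ℕ) : (J → ℤ) →ₗ[ℤ] (J → ℤ) where
  toFun u := fun j => if dJ j = m then u j else 0
  map_add' u v := by
    funext j
    show (if dJ j = m then (u + v) j else 0) = (if dJ j = m then u j else 0) + (if dJ j = m then v j else 0)
    split_ifs <;> simp
  map_smul' c u := by
    funext j
    show (if dJ j = m then (c • u) j else 0) = c • (if dJ j = m then u j else 0)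
    split_ifs <;> simp

omit [Fintype J] in
theorem pm_chains (dJ : J → ℕ) (m : ℕ) (u : J → ℤ) (hu : u ∈ chains ℤ dJ m) : pm dJ m u = u := by
  funext j
  show (if dJ j = m then u j else 0) = u j
  split_ifs with h
  · rfl
  · exact (hu j h).symm

omit [Fintype J] in
theorem pm_mem (dJ : J → ℕ) (m : ℕ) (u : J → ℤ) : pm dJ m u ∈ chains ℤ dJ m := by
  intro j hj
  show (if dJ j = m then u j else 0) = 0
  rw [if_neg hj]

theorem pm_vecMul (dJ : J → ℕ) (B : Matrix J J ℤ) (hB : IsCx dJ B) (m : ℕ) (u : J → ℤ) :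
    pm dJ m (vecMul u B) = vecMul (pm dJ (m + 1) u) B := by
  funext j
  show (if dJ j = m then vecMul u B j else 0) = vecMul (fun i => if dJ i = m + 1 then u i else 0) B j
  simp only [vecMul, dotProduct]
  split_ifs with h
  · refine Finset.sum_congr rfl fun i _ => ?_
    by_cases h1 : B i j = 0
    · rw [h1, mul_zero, mul_zero]
    · rw [if_pos (by rw [hB.1 i j h1, h])]
  · symm
    apply Finset.sum_eq_zero
    intro i _
    by_cases h1 : B i j = 0
    · rw [h1, mul_zero]
    · have := hB.1 i j h1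
      rw [if_neg (by omega), zero_mul]

theorem bd_le (dJ : J → ℕ) (B : Matrix J J ℤ) (hB : IsCx dJ B) (m : ℕ) :
    boundaries dJ B m ≤ cycles dJ B m := by
  rintro _ ⟨u, hu, rfl⟩
  refine ⟨fun j hj => ?_, ?_⟩
  · rw [Matrix.vecMulLinear_apply]
    show ∑ i, u i * B i j = 0
    apply Finset.sum_eq_zero
    intro i _
    by_cases h1 : B i j = 0
    · rw [h1, mul_zero]
    · have := hB.1 i j h1
      rw [hu i (by omega), zero_mul]
  · show Matrix.vecMulLinear B (Matrix.vecMulLinear B u) = 0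
    rw [Matrix.vecMulLinear_apply, Matrix.vecMulLinear_apply, vecMul_vecMul, hB.2, vecMul_zero]

theorem exists_dual (dJ : J → ℕ) (B : Matrix J J ℤ) (hB : IsCx dJ B) (m : ℕ) :
    ∃ (s : Fin (betti dJ (toF ℚ B) m) → (J → ℤ))
      (q : Fin (betti dJ (toF ℚ B) m) → ((J → ℤ) →ₗ[ℤ] ℤ)),
      (∀ l, s l ∈ cycles dJ B m) ∧ (∀ l u, (∀ j, dJ j = m → u j = 0) → q l u = 0) ∧
      (∀ l u, q l (vecMul u B) = 0) ∧ ∀ l l', q l (s l') = if l = l' then 1 else 0 := by
  classical
  obtain ⟨x, hx1, hx2⟩ := exists_indep dJ B m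
  set Z := cycles dJ B m with hZ
  set Bd := boundaries dJ B m with hBd
  set T := Submodule.torsion ℤ (Z ⧸ Bd.submoduleOf Z) with hT
  have hfin : Module.Finite ℤ ((Z ⧸ Bd.submoduleOf Z) ⧸ T) := inferInstance
  have hfree : Module.Free ℤ ((Z ⧸ Bd.submoduleOf Z) ⧸ T) := inferInstance
  -- the classes are independent
  have hind : LinearIndependent ℤ (fun l => (T.mkQ ((Bd.submoduleOf Z).mkQ ⟨x l, hx1 l⟩))) := by
    rw [Fintype.linearIndependent_iff]
    intro a ha
    have h1 : T.mkQ (∑ l, a l • (Bd.submoduleOf Z).mkQ ⟨x l, hx1 l⟩) = 0 := by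
      rw [map_sum, ← ha]
      refine Finset.sum_congr rfl fun l _ => ?_
      rw [map_smul]
    rw [Submodule.mkQ_apply, Submodule.Quotient.mk_eq_zero] at h1
    obtain ⟨c, hc⟩ := h1
    have hc' : (c : ℤ) • (∑ l, a l • (Bd.submoduleOf Z).mkQ ⟨x l, hx1 l⟩) = 0 := hc
    have h2 : (Bd.submoduleOf Z).mkQ (∑ l, ((c : ℤ) * a l) • (⟨x l, hx1 l⟩ : Z)) = 0 := by
      rw [map_sum, ← hc', Finset.smul_sum]
      refine Finset.sum_congr rfl fun l _ => ?_
      rw [map_smul, smul_smul]
    rw [Submodule.mkQ_apply, Submodule.Quotient.mk_eq_zero] at h2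
    have h3 : ((∑ l, ((c : ℤ) * a l) • (⟨x l, hx1 l⟩ : Z) : Z) : J → ℤ) ∈ Bd := h2
    rw [AddSubmonoidClass.coe_finsetSum] at h3
    have h4 := hx2 (fun l => (c : ℤ) * a l) h3
    intro l
    have h5 := congrFun h4 l
    have hc0 : (c : ℤ) ≠ 0 := nonZeroDivisors.coe_ne_zero c
    rcases mul_eq_zero.1 h5 with h | h
    · exact absurd h hc0
    · exact h
  have hle : betti dJ (toF ℚ B) m ≤ Module.finrank ℤ ((Z ⧸ Bd.submoduleOf Z) ⧸ T) := by
    have := hind.fintype_card_le_finrank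
    rwa [Fintype.card_fin] at this
  let e := Module.finBasis ℤ ((Z ⧸ Bd.submoduleOf Z) ⧸ T)
  -- lifts
  have hy : ∀ l, ∃ y : Z, T.mkQ ((Bd.submoduleOf Z).mkQ y) = e l := by
    intro l
    obtain ⟨w, hw⟩ := T.mkQ_surjective (e l)
    obtain ⟨y, hy⟩ := (Bd.submoduleOf Z).mkQ_surjective w
    exact ⟨y, by rw [hy, hw]⟩
  choose y hy using hy
  -- the complement
  have htf : Module.IsTorsionFree ℤ ((J → ℤ) ⧸ Z) := by
    rw [Submodule.isTorsionFree_iff_torsion_eq_bot, eq_bot_iff]
    intro w hw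
    obtain ⟨v, rfl⟩ := Z.mkQ_surjective w
    obtain ⟨c, hc⟩ := hw
    have hc0 : (c : ℤ) ≠ 0 := nonZeroDivisors.coe_ne_zero c
    have hc' : (c : ℤ) • Z.mkQ v = 0 := hc
    rw [← map_smul, Submodule.mkQ_apply, Submodule.Quotient.mk_eq_zero] at hc'
    rw [Submodule.mem_bot, Submodule.mkQ_apply, Submodule.Quotient.mk_eq_zero]
    refine ⟨fun j hj => ?_, ?_⟩
    · have := hc'.1 j hj
      rw [Pi.smul_apply, smul_eq_mul] at this
      rcases mul_eq_zero.1 this with h | h
      · exact absurd h hc0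
      · exact h
    · have h1 : Matrix.vecMulLinear B ((c : ℤ) • v) = 0 := hc'.2
      rw [map_smul] at h1
      show Matrix.vecMulLinear B v = 0
      rcases smul_eq_zero.1 h1 with h | h
      · exact absurd h hc0
      · exact h
  have hfree2 : Module.Free ℤ ((J → ℤ) ⧸ Z) := inferInstance
  obtain ⟨σ, hσ⟩ := Module.projective_lifting_property Z.mkQ LinearMap.id Z.mkQ_surjective
  have hσ' : ∀ w, Z.mkQ (σ w) = w := fun w => by
    have := LinearMap.congr_fun hσ w
    exact this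
  let π : (J → ℤ) →ₗ[ℤ] Z := LinearMap.codRestrict Z (LinearMap.id - σ ∘ₗ Z.mkQ) (by
    intro v
    rw [← Submodule.Quotient.mk_eq_zero, ← Submodule.mkQ_apply, LinearMap.sub_apply, map_sub]
    show Z.mkQ v - Z.mkQ (σ (Z.mkQ v)) = 0
    rw [hσ', sub_self])
  have hπ : ∀ z : Z, π z = z := by
    intro z
    apply Subtype.ext
    show (z : J → ℤ) - σ (Z.mkQ z) = z
    have : Z.mkQ (z : J → ℤ) = 0 := by
      rw [Submodule.mkQ_apply, Submodule.Quotient.mk_eq_zero]
      exact z.2
    rw [this, map_zero, sub_zero]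
  refine ⟨fun l => y (Fin.castLE hle l), fun l => (e.coord (Fin.castLE hle l)) ∘ₗ T.mkQ ∘ₗ
    (Bd.submoduleOf Z).mkQ ∘ₗ π ∘ₗ pm dJ m, fun l => (y _).2, ?_, ?_, ?_⟩
  · intro l u hu
    have : pm dJ m u = 0 := by
      funext j
      show (if dJ j = m then u j else 0) = 0
      split_ifs with h
      · exact hu j h
      · rfl
    simp only [LinearMap.comp_apply, this, map_zero]
  · intro l u
    have h1 : vecMul (pm dJ (m + 1) u) B ∈ Bd :=
      ⟨pm dJ (m + 1) u, pm_mem _ _ _, Matrix.vecMulLinear_apply _ _⟩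
    have h2 := bd_le dJ B hB m h1
    have h3 : π (pm dJ m (vecMul u B)) = ⟨_, h2⟩ := by
      rw [pm_vecMul dJ B hB]
      exact hπ ⟨_, h2⟩
    simp only [LinearMap.comp_apply]
    rw [h3]
    have h4 : (Bd.submoduleOf Z).mkQ ⟨_, h2⟩ = 0 := by
      rw [Submodule.mkQ_apply, Submodule.Quotient.mk_eq_zero]
      exact h1
    rw [h4, map_zero, map_zero]
  · intro l l'
    simp only [LinearMap.comp_apply]
    rw [pm_chains dJ m _ (y (Fin.castLE hle l')).2.1, hπ, hy, Module.Basis.coord_apply,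
      Module.Basis.repr_self, Finsupp.single_apply]
    by_cases h : l = l'
    · subst h
      rw [if_pos rfl, if_pos rfl]
    · rw [if_neg h, if_neg (fun h2 => h (Fin.castLE_injective hle h2).symm)]

end dual

/-! ### induced maps on homology -/

section ind

variable {M N : Type} [AddCommGroup M] [AddCommGroup N]

/-- the induced map -/
def ind (F : M →ₗ[ℤ] N) (Z B : Submodule ℤ M) (Z' B' : Submodule ℤ N)
    (h1 : ∀ x ∈ Z, F x ∈ Z') (h2 : ∀ x ∈ B, F x ∈ B') :
    (Z ⧸ B.submoduleOf Z) →ₗ[ℤ] (Z' ⧸ B'.submoduleOf Z') :=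
  Submodule.mapQ _ _ (F.restrict h1) (fun x hx => h2 x hx)

theorem ind_mk (F : M →ₗ[ℤ] N) (Z B : Submodule ℤ M) (Z' B' : Submodule ℤ N)
    (h1 : ∀ x ∈ Z, F x ∈ Z') (h2 : ∀ x ∈ B, F x ∈ B') (z : Z) :
    ind F Z B Z' B' h1 h2 ((B.submoduleOf Z).mkQ z) = (B'.submoduleOf Z').mkQ ⟨F z, h1 z z.2⟩ := rfl

theorem card_le (Z B : Submodule ℤ M) (Z' B' : Submodule ℤ N) (b : ℕ)
    (hfin : Module.Finite ℤ (Z' ⧸ B'.submoduleOf Z'))
    (f : Fin b → (M →ₗ[ℤ] N)) (g : Fin b → (N →ₗ[ℤ] M))
    (hf1 : ∀ l, ∀ x ∈ Z, f l x ∈ Z') (hf2 : ∀ l, ∀ x ∈ B, f l x ∈ B')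
    (hg1 : ∀ l, ∀ x ∈ Z', g l x ∈ Z) (hg2 : ∀ l, ∀ x ∈ B', g l x ∈ B)
    (hgf : ∀ l l' x, g l (f l' x) = if l = l' then x else 0) :
    Pool.Agent.Helper993.Delta.torsionCard Z B ^ b ≤
      Pool.Agent.Helper993.Delta.torsionCard Z' B' := by
  classical
  unfold Pool.Agent.Helper993.Delta.torsionCard
  set H := Z ⧸ B.submoduleOf Z with hH
  set H' := Z' ⧸ B'.submoduleOf Z' with hH'
  have : Finite (Submodule.torsion ℤ H') :=
    Module.finite_of_fg_torsion _ (Submodule.torsion_isTorsion)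
  have e : Nat.card (Submodule.torsion ℤ H) ^ b = Nat.card (Fin b → Submodule.torsion ℤ H) := by
    rw [Nat.card_fun, Nat.card_fin]
  rw [e]
  let F : Fin b → (H →ₗ[ℤ] H') := fun l => ind (f l) Z B Z' B' (hf1 l) (hf2 l)
  let G : Fin b → (H' →ₗ[ℤ] H) := fun l => ind (g l) Z' B' Z B (hg1 l) (hg2 l)
  have hGF : ∀ l l' x, G l (F l' x) = if l = l' then x else 0 := by
    intro l l' x
    obtain ⟨z, rfl⟩ := (B.submoduleOf Z).mkQ_surjective x
    have h1 : G l (F l' ((B.submoduleOf Z).mkQ z)) =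
        (B.submoduleOf Z).mkQ ⟨g l (f l' z), hg1 l _ (hf1 l' _ z.2)⟩ := rfl
    rw [h1]
    by_cases h : l = l'
    · rw [if_pos h]
      congr 1
      apply Subtype.ext
      show g l (f l' z) = z
      rw [hgf, if_pos h]
    · rw [if_neg h, ← map_zero (B.submoduleOf Z).mkQ]
      congr 1
      apply Subtype.ext
      show g l (f l' z) = 0
      rw [hgf, if_neg h]
  have hmem : ∀ t : Fin b → Submodule.torsion ℤ H,
      ∑ l, F l (t l : H) ∈ Submodule.torsion ℤ H' := by
    intro t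
    apply Submodule.sum_mem
    intro l _
    obtain ⟨c, hc⟩ := (t l).2
    have hc' : (c : ℤ) • (t l : H) = 0 := hc
    refine ⟨c, ?_⟩
    show (c : ℤ) • F l (t l : H) = 0
    rw [← map_smul, hc', map_zero]
  apply Nat.card_le_card_of_injective (fun t : Fin b → Submodule.torsion ℤ H =>
    (⟨∑ l, F l (t l : H), hmem t⟩ : Submodule.torsion ℤ H'))
  intro t t' htt
  have h1 : ∑ l, F l (t l : H) = ∑ l, F l (t' l : H) := congrArg Subtype.val htt
  funext l
  apply Subtype.ext
  have h2 : ∀ u : Fin b → Submodule.torsion ℤ H, G l (∑ l', F l' (u l' : H)) = u l := by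
    intro u
    rw [map_sum]
    rw [Finset.sum_congr rfl fun l' _ => hGF l l' (u l')]
    rw [Finset.sum_ite_eq Finset.univ l, if_pos (Finset.mem_univ _)]
  rw [← h2 t, ← h2 t', h1]

end ind

/-! ### the maps for the tensor product -/

section maps

variable {I J : Type} [Fintype I] [Fintype J] [DecidableEq I] [DecidableEq J]

/-- `v ↦ v ⊗ s` -/
def fw (s : J → ℤ) : (I → ℤ) →ₗ[ℤ] (I × J → ℤ) where
  toFun v := fun p => v p.1 * s p.2
  map_add' u v := by funext p; simp [add_mul]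
  map_smul' c u := by funext p; simp [mul_assoc]

/-- apply `q` to the second variable -/
def bw (q : (J → ℤ) →ₗ[ℤ] ℤ) : (I × J → ℤ) →ₗ[ℤ] (I → ℤ) where
  toFun w := fun i => q (fun j => w (i, j))
  map_add' u v := by
    funext i
    show q (fun j => (u + v) (i, j)) = q (fun j => u (i, j)) + q (fun j => v (i, j))
    rw [← map_add]
    rfl
  map_smul' c u := by
    funext i
    show q (fun j => (c • u) (i, j)) = c • q (fun j => u (i, j))
    rw [← map_smul]
    rfl

theorem vecMul_tens (dI : I → ℕ) (A : Matrix I I ℤ) (B : Matrix J J ℤ) (w : I × J → ℤ) (i : I) (j : J) :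
    vecMul w (tens dI A B) (i, j) = vecMul (fun i' => w (i', j)) A i +
      (-1) ^ dI i * vecMul (fun j' => w (i, j')) B j := by
  simp only [vecMul, dotProduct]
  have e : ∀ p : I × J, w p * tens dI A B p (i, j) =
      w p * (if p.2 = j then A p.1 i else 0) +
        w p * (if p.1 = i then (-1) ^ dI p.1 * B p.2 j else 0) := by
    intro p
    rw [← mul_add]
    rfl
  rw [Finset.sum_congr rfl fun p _ => e p, Finset.sum_add_distrib]
  congr 1
  · rw [Fintype.sum_prod_type]
    refine Finset.sum_congr rfl fun i' _ => ?_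
    rw [Finset.sum_eq_single j]
    · rw [if_pos rfl]
    · intro j' _ hj'
      rw [if_neg hj', mul_zero]
    · intro h; exact absurd (Finset.mem_univ _) h
  · rw [Fintype.sum_prod_type, Finset.sum_eq_single i, Finset.mul_sum]
    · refine Finset.sum_congr rfl fun j' _ => ?_
      rw [if_pos rfl]
      ring
    · intro i' _ hi'
      apply Finset.sum_eq_zero
      intro j' _
      rw [if_neg hi', mul_zero]
    · intro h; exact absurd (Finset.mem_univ _) h

theorem fw_tens (dI : I → ℕ) (A : Matrix I I ℤ) (B : Matrix J J ℤ) (s : J → ℤ)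
    (hs : vecMul s B = 0) (v : I → ℤ) :
    vecMul (fw s v) (tens dI A B) = fw s (vecMul v A) := by
  funext p
  obtain ⟨i, j⟩ := p
  rw [vecMul_tens]
  have h1 : vecMul (fun i' => fw s v (i', j)) A i = vecMul v A i * s j := by
    simp only [vecMul, dotProduct, Finset.sum_mul]
    refine Finset.sum_congr rfl fun i' _ => ?_
    show v i' * s j * A i' i = v i' * A i' i * s j
    ring
  have h2 : vecMul (fun j' => fw s v (i, j')) B j = 0 := by
    have e : (fun j' => fw s v (i, j')) = v i • s := rfl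
    rw [e, smul_vecMul, hs, smul_zero]
    rfl
  rw [h1, h2, mul_zero, add_zero]
  rfl

theorem bw_tens (dI : I → ℕ) (A : Matrix I I ℤ) (B : Matrix J J ℤ) (q : (J → ℤ) →ₗ[ℤ] ℤ)
    (hq : ∀ u, q (vecMul u B) = 0) (w : I × J → ℤ) :
    bw q (vecMul w (tens dI A B)) = vecMul (bw q w) A := by
  funext i
  show q (fun j => vecMul w (tens dI A B) (i, j)) = _
  have e : (fun j => vecMul w (tens dI A B) (i, j)) =
      ∑ i', A i' i • (fun j => w (i', j)) + ((-1) ^ dI i : ℤ) • vecMul (fun j' => w (i, j')) B := by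
    funext j
    rw [vecMul_tens, Pi.add_apply, Finset.sum_apply, Pi.smul_apply, smul_eq_mul]
    congr 1
    simp only [vecMul, dotProduct]
    refine Finset.sum_congr rfl fun i' _ => ?_
    rw [Pi.smul_apply, smul_eq_mul, mul_comm]
  rw [e, map_add, map_smul, hq, smul_zero, add_zero, map_sum]
  simp only [vecMul, dotProduct]
  refine Finset.sum_congr rfl fun i' _ => ?_
  rw [map_smul, smul_eq_mul, mul_comm]
  rfl

/-- RET -/
theorem t : RetStmt := by
  intro I J _ _ _ _ dI dJ A B hA hB k m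
  obtain ⟨s, q, hs, hq1, hq2, hqs⟩ := exists_dual dJ B hB m
  have hsB : ∀ l, vecMul (s l) B = 0 := fun l => (hs l).2
  have hfc : ∀ (k : ℕ) l (v : I → ℤ), v ∈ chains ℤ dI k → fw (s l) v ∈ chains ℤ (degT dI dJ) (k + m) := by
    intro k l v hv p hp
    show v p.1 * s l p.2 = 0
    by_cases h : dI p.1 = k
    · have : dJ p.2 ≠ m := by
        intro h2
        exact hp (by unfold degT; rw [h, h2])
      rw [(hs l).1 _ this, mul_zero]
    · rw [hv _ h, zero_mul]
  have hbc : ∀ (k : ℕ) l (w : I × J → ℤ), w ∈ chains ℤ (degT dI dJ) (k + m) → bw (q l) w ∈ chains ℤ dI k := by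
    intro k l w hw i hi
    apply hq1
    intro j hj
    apply hw
    unfold degT
    intro h
    have : dI i + dJ j = k + m := h
    omega
  unfold torsOrder
  refine card_le _ _ _ _ _ ?_ (fun l => fw (s l)) (fun l => bw (q l)) ?_ ?_ ?_ ?_ ?_
  · infer_instance
  · intro l v hv
    refine ⟨hfc k l v hv.1, ?_⟩
    show Matrix.vecMulLinear _ (fw (s l) v) = 0
    rw [Matrix.vecMulLinear_apply, fw_tens dI A B (s l) (hsB l)]
    have : vecMul v A = 0 := hv.2
    rw [this, map_zero]
  · rintro l _ ⟨v, hv, rfl⟩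
    refine ⟨fw (s l) v, ?_, ?_⟩
    · have := hfc (k + 1) l v hv
      rw [show k + m + 1 = k + 1 + m by omega]
      exact this
    · rw [Matrix.vecMulLinear_apply, Matrix.vecMulLinear_apply, fw_tens dI A B (s l) (hsB l)]
  · intro l w hw
    refine ⟨hbc k l w hw.1, ?_⟩
    show Matrix.vecMulLinear _ (bw (q l) w) = 0
    rw [Matrix.vecMulLinear_apply, ← bw_tens dI A B (q l) (hq2 l)]
    have : vecMul w (tens dI A B) = 0 := hw.2
    rw [this, map_zero]
  · rintro l _ ⟨w, hw, rfl⟩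
    refine ⟨bw (q l) w, ?_, ?_⟩
    · apply hbc (k + 1) l w
      rw [show k + 1 + m = k + m + 1 by omega]
      exact hw
    · rw [Matrix.vecMulLinear_apply, Matrix.vecMulLinear_apply, bw_tens dI A B (q l) (hq2 l)]
  · intro l l' v
    funext i
    show q l (fun j => v i * s l' j) = _
    have e : (fun j => v i * s l' j) = v i • s l' := rfl
    rw [e, map_smul, hqs]
    split_ifs <;> simp

end maps

end Pool.Agent.Y681.TG.Ret
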